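import Pool.Agent.Hp428.SS.Rot
import Pool.Agent.W571.SD.Grow

set_option autoImplicit false

/-!
# Sums of two shifts of a function: local theory

`FS σ b F z = F (z + b) + σ F (z - b)`.
-/

namespace Pool.Agent.Hp428.SS

open Complex Filter Topology MeasureTheory Set
open Pool.Agent.H24R2.DZ (NN)
open Pool.Agent.W571.SD (nn_grow)

/-- `F (z + b) + σ F (z - b)`. -/
noncomputable def FS (σ b : ℝ) (F : ℂ → ℂ) (z : ℂ) : ℂ := F (z + b) + σ * F (z - b)

lemma FS_diff {σ b : ℝ} {F : ℂ → ℂ} (h : Differentiable ℂ F) : Differentiable ℂ (FS σ b F) := by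
  unfold FS
  exact (h.comp (differentiable_id.add_const _)).add ((h.comp (differentiable_id.sub_const _)).const_mul _)

lemma FS_deriv {σ b : ℝ} {F : ℂ → ℂ} (h : Differentiable ℂ F) (z : ℂ) :
    HasDerivAt (FS σ b F) (deriv F (z + b) + σ * deriv F (z - b)) z := by
  have h1 : HasDerivAt (fun z : ℂ => F (z + b)) (deriv F (z + b)) z := by
    have := (h (z + b)).hasDerivAt.comp_add_const z (b : ℂ)
    exact this
  have h2 : HasDerivAt (fun z : ℂ => F (z - b)) (deriv F (z - b)) z := by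
    have := (h (z - b)).hasDerivAt.comp_sub_const z (b : ℂ)
    exact this
  exact h1.add (h2.const_mul _)

lemma FS_symm {σ b : ℝ} (hσ : σ = 1 ∨ σ = -1) {F : ℂ → ℂ}
    (h : ∀ z : ℂ, F (-((starRingEnd ℂ) z)) = (starRingEnd ℂ) (F z)) (z : ℂ) :
    FS σ b F (-((starRingEnd ℂ) z)) = σ * (starRingEnd ℂ) (FS σ b F z) := by
  unfold FS
  have e1 : -((starRingEnd ℂ) z) + b = -((starRingEnd ℂ) (z - b)) := by
    rw [map_sub, Complex.conj_ofReal]
    ring
  have e2 : -((starRingEnd ℂ) z) - b = -((starRingEnd ℂ) (z + b)) := by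
    rw [map_add, Complex.conj_ofReal]
    ring
  rw [e1, e2, h, h, map_add, map_mul, Complex.conj_ofReal]
  rcases hσ with rfl | rfl
  · push_cast
    ring
  · push_cast
    ring

lemma FS_zero_symm {σ b : ℝ} (hσ : σ = 1 ∨ σ = -1) {F : ℂ → ℂ}
    (h : ∀ z : ℂ, F (-((starRingEnd ℂ) z)) = (starRingEnd ℂ) (F z)) {z : ℂ} (hz : FS σ b F z = 0) :
    FS σ b F (-((starRingEnd ℂ) z)) = 0 := by
  rw [FS_symm hσ h, hz, map_zero, mul_zero]

/-- If `FS` vanishes then the two terms have the same size. -/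
lemma FS_norm {σ b : ℝ} (hσ : σ = 1 ∨ σ = -1) {F : ℂ → ℂ} {z : ℂ} (hz : FS σ b F z = 0) :
    ‖F (z + b)‖ = ‖F (z - b)‖ := by
  have h1 : F (z + b) = -(σ * F (z - b)) := eq_neg_of_add_eq_zero_left hz
  rw [h1, norm_neg, norm_mul]
  have : ‖(σ : ℂ)‖ = 1 := by
    rcases hσ with rfl | rfl <;> simp
  rw [this, one_mul]

/-- both arguments in the far region -/
lemma no_zero_far {m η δ : ℝ} {F : ℂ → ℂ} (hm : 0 < m) (hη : η ≤ 1 / 2) (hN : NN m η F) (hδ : 0 < δ)
    (hδ1 : δ ≤ 1) {z : ℂ} (hz1 : δ + 1 / 1000 ≤ z.re) (hz2 : ‖z‖ ≤ 19) :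
    ‖F (z - δ)‖ < ‖F (z + δ)‖ := by
  have hn1 : ‖(δ : ℂ)‖ ≤ 1 := by
    rw [Complex.norm_real, Real.norm_eq_abs, abs_of_pos hδ]
    exact hδ1
  have h1 := nn_grow hN (a := z + δ) (b := z - δ) (by simp; linarith) (by simp; linarith)
    ((norm_add_le _ _).trans (by linarith)) ((norm_sub_le _ _).trans (by linarith))
  have e1 : z - δ - (z + δ) = ((-(2 * δ) : ℝ) : ℂ) := by
    push_cast
    ring
  rw [e1, Complex.ofReal_re, Complex.norm_real, Real.norm_eq_abs, abs_neg, abs_of_pos (by linarith)] at h1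
  have hpos : 0 < ‖F (z + δ)‖ := norm_pos_iff.2 (hN.far _ (by simp; linarith)
    ((norm_add_le _ _).trans (by linarith))).1
  refine h1.trans_lt ?_
  have h2 : Real.exp (m * -(2 * δ) + η * m * (2 * δ)) < 1 := by
    rw [Real.exp_lt_one_iff]
    have h3 : η * m * (2 * δ) ≤ 1 / 2 * m * (2 * δ) := by gcongr
    have h4 : 0 < m * δ := by positivity
    linarith
  calc ‖F (z + δ)‖ * Real.exp (m * -(2 * δ) + η * m * (2 * δ)) < ‖F (z + δ)‖ * 1 :=
        mul_lt_mul_of_pos_left h2 hpos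
    _ = _ := mul_one _

/-- the shift by one, everywhere to the right -/
lemma no_zero_one {m η : ℝ} {F : ℂ → ℂ} (hm : 0 < m) (hη0 : 0 ≤ η) (hη : η ≤ 1 / 1000) (hN : NN m η F)
    {z : ℂ} (hz1 : 0 < z.re) (hz2 : ‖z‖ ≤ 18) : ‖F (z - 1)‖ < ‖F (z + 1)‖ := by
  have hzp : ‖z + 1‖ ≤ 19 := (norm_add_le _ _).trans (by rw [norm_one]; linarith)
  have hzm : ‖z - 1‖ ≤ 19 := (norm_sub_le _ _).trans (by rw [norm_one]; linarith)
  have hpos : 0 < ‖F (z + 1)‖ := norm_pos_iff.2 (hN.far _ (by simp; linarith) (by linarith)).1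
  rcases le_or_gt (1 + 1 / 1000) z.re with h1 | h1
  · have := no_zero_far hm (by linarith) hN one_pos le_rfl h1 (by linarith)
    simpa using this
  · rcases le_or_gt (1 - 1 / 1000) z.re with h2 | h2
    · -- the middle
      have h3 := hN.near (z - 1) (by
        rw [Complex.sub_re, Complex.one_re, abs_le]
        constructor <;> linarith) (by linarith)
      have h4 := nn_grow hN (a := z + 1) (b := 1) (by simp; linarith) (by norm_num) (by linarith) (by simp)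
      have e1 : (1 - (z + 1)).re = -z.re := by simp
      have e2 : ‖(1 : ℂ) - (z + 1)‖ ≤ 18 := by
        have : (1 : ℂ) - (z + 1) = -z := by ring
        rw [this, norm_neg]
        exact hz2
      rw [e1] at h4
      have h5 : m * -z.re + η * m * ‖(1 : ℂ) - (z + 1)‖ ≤ -(9 / 10) * m := by
        have h6 : η * m * ‖(1 : ℂ) - (z + 1)‖ ≤ 1 / 1000 * m * 18 := by
          apply mul_le_mul _ e2 (norm_nonneg _) (by positivity)
          exact mul_le_mul_of_nonneg_right hη hm.le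
        have h7 : m * (1 - 1 / 1000) ≤ m * z.re := mul_le_mul_of_nonneg_left h2 hm.le
        linarith
      calc ‖F (z - 1)‖ ≤ ‖F 1‖ * Real.exp (-(9 / 10 * m)) := h3
        _ ≤ (‖F (z + 1)‖ * Real.exp (-(9 / 10) * m)) * Real.exp (-(9 / 10 * m)) := by
            apply mul_le_mul_of_nonneg_right _ (Real.exp_pos _).le
            exact h4.trans (mul_le_mul_of_nonneg_left (Real.exp_le_exp.2 h5) hpos.le)
        _ = ‖F (z + 1)‖ * Real.exp (-(9 / 5) * m) := by
            rw [mul_assoc, ← Real.exp_add]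
            congr 2
            ring
        _ < ‖F (z + 1)‖ * 1 := by
            apply mul_lt_mul_of_pos_left _ hpos
            rw [Real.exp_lt_one_iff]
            linarith
        _ = _ := mul_one _
    · -- reflection
      have e0 : ‖F (z - 1)‖ = ‖F (1 - (starRingEnd ℂ) z)‖ := by
        have : (1 : ℂ) - (starRingEnd ℂ) z = -((starRingEnd ℂ) (z - 1)) := by
          rw [map_sub, map_one]
          ring
        rw [this, hN.symm, RCLike.norm_conj]
      rw [e0]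
      have hzc : ‖(1 : ℂ) - (starRingEnd ℂ) z‖ ≤ 19 := by
        refine (norm_sub_le _ _).trans ?_
        rw [norm_one, RCLike.norm_conj]
        linarith
      have h4 := nn_grow hN (a := z + 1) (b := 1 - (starRingEnd ℂ) z) (by simp; linarith)
        (by simp; linarith) (by linarith) (by linarith)
      have e1 : (1 : ℂ) - (starRingEnd ℂ) z - (z + 1) = ((-(2 * z.re) : ℝ) : ℂ) := by
        have : z + (starRingEnd ℂ) z = ((2 * z.re : ℝ) : ℂ) := Complex.add_conj z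
        push_cast at this ⊢
        linear_combination -this
      rw [e1, Complex.ofReal_re, Complex.norm_real, Real.norm_eq_abs, abs_neg, abs_of_pos (by linarith)] at h4
      refine h4.trans_lt ?_
      have h2 : Real.exp (m * -(2 * z.re) + η * m * (2 * z.re)) < 1 := by
        rw [Real.exp_lt_one_iff]
        have h3 : η * m * (2 * z.re) ≤ 1 / 1000 * m * (2 * z.re) := by gcongr
        have h4 : 0 < m * z.re := by positivity
        linarith
      calc ‖F (z + 1)‖ * Real.exp (m * -(2 * z.re) + η * m * (2 * z.re)) < ‖F (z + 1)‖ * 1 :=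
            mul_lt_mul_of_pos_left h2 hpos
        _ = _ := mul_one _

lemma neg_conj_re (z : ℂ) : (-((starRingEnd ℂ) z)).re = -z.re := by simp

lemma neg_conj_norm (z : ℂ) : ‖-((starRingEnd ℂ) z)‖ = ‖z‖ := by rw [norm_neg, RCLike.norm_conj]

/-- No zeros far from the line, small shift. -/
theorem far_free {m η δ σ : ℝ} {F : ℂ → ℂ} (hσ : σ = 1 ∨ σ = -1) (hm : 0 < m) (hη : η ≤ 1 / 2) (hN : NN m η F)
    (hδ : 0 < δ) (hδ1 : δ ≤ 1) {z : ℂ} (hz1 : δ + 1 / 1000 ≤ |z.re|) (hz2 : ‖z‖ ≤ 19) : FS σ δ F z ≠ 0 := by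
  intro h0
  rcases le_abs.1 hz1 with h | h
  · have h1 := no_zero_far hm hη hN hδ hδ1 h hz2
    rw [FS_norm hσ h0] at h1
    exact lt_irrefl _ h1
  · have h1 := no_zero_far hm hη hN hδ hδ1 (z := -((starRingEnd ℂ) z)) (by rw [neg_conj_re]; exact h)
      (by rw [neg_conj_norm]; exact hz2)
    rw [FS_norm hσ (FS_zero_symm hσ hN.symm h0)] at h1
    exact lt_irrefl _ h1

/-- All zeros are on the line and simple, shift one. -/
theorem line_simple {m η σ : ℝ} {F : ℂ → ℂ} (hσ : σ = 1 ∨ σ = -1) (hm : 0 < m) (hη0 : 0 ≤ η) (hη : η ≤ 1 / 1000)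
    (hN : NN m η F) {z : ℂ} (hz2 : ‖z‖ ≤ 18) (h0 : FS σ 1 F z = 0) :
    z.re = 0 ∧ deriv (FS σ 1 F) z ≠ 0 := by
  have hre : z.re = 0 := by
    rcases lt_trichotomy z.re 0 with h | h | h
    · exfalso
      have h1 := no_zero_one hm hη0 hη hN (z := -((starRingEnd ℂ) z)) (by rw [neg_conj_re]; linarith)
        (by rw [neg_conj_norm]; exact hz2)
      have h2 := FS_norm hσ (FS_zero_symm hσ hN.symm h0)
      push_cast at h2
      rw [h2] at h1
      exact lt_irrefl _ h1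
    · exact h
    · exfalso
      have h1 := no_zero_one hm hη0 hη hN h hz2
      have h2 := FS_norm hσ h0
      push_cast at h2
      rw [h2] at h1
      exact lt_irrefl _ h1
  refine ⟨hre, ?_⟩
  have hzc : -((starRingEnd ℂ) z) = z := by
    apply Complex.ext
    · simp [hre]
    · simp
  have hz1re : (z + 1).re = 1 := by simp [hre]
  have hz1n : ‖z + 1‖ ≤ 20 := (norm_add_le _ _).trans (by rw [norm_one]; linarith)
  obtain ⟨hA, hl⟩ := hN.far (z + 1) (by rw [hz1re]; norm_num) hz1n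
  -- the reflected values
  have e1 : z - 1 = -((starRingEnd ℂ) (z + 1)) := by
    rw [map_add, map_one, neg_add, hzc]
    ring
  have e2 : F (z - 1) = (starRingEnd ℂ) (F (z + 1)) := by rw [e1, hN.symm]
  have e3 : deriv F (z - 1) = -(starRingEnd ℂ) (deriv F (z + 1)) := by
    have h1 : HasDerivAt F (deriv F (z + 1)) (z + 1) := (hN.diff _).hasDerivAt
    have h2 := h1.conj_conj
    have h3 : (starRingEnd ℂ) ∘ F ∘ (starRingEnd ℂ) = fun w => F (-w) := by
      funext w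
      simp only [Function.comp_apply]
      rw [← hN.symm, Complex.conj_conj]
    rw [h3] at h2
    have h4 : HasDerivAt (fun w : ℂ => -w) (-1) (z - 1) := hasDerivAt_neg' (z - 1)
    have h5 : (fun w : ℂ => -w) (z - 1) = (starRingEnd ℂ) (z + 1) := by
      simp only
      rw [e1, neg_neg]
    rw [← h5] at h2
    have h6 := HasDerivAt.comp (z - 1) h2 h4
    have h7 : (fun w => F (-w)) ∘ (fun w : ℂ => -w) = F := by
      funext w
      simp
    rw [h7] at h6
    rw [h6.deriv]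
    ring
  obtain ⟨A, hAd⟩ : ∃ A, A = F (z + 1) := ⟨_, rfl⟩
  obtain ⟨l, hld⟩ : ∃ l, l = logDeriv F (z + 1) := ⟨_, rfl⟩
  have hdA : deriv F (z + 1) = l * A := by
    rw [hld, hAd, logDeriv_apply, div_mul_cancel₀ _ hA]
  rw [(FS_deriv hN.diff z).deriv]
  push_cast
  rw [e3, hdA, map_mul]
  have h00 : A + σ * (starRingEnd ℂ) A = 0 := by
    have := h0
    unfold FS at this
    push_cast at this
    rw [e2] at this
    rw [hAd]
    exact this
  have e4 : l * A + σ * -((starRingEnd ℂ) l * (starRingEnd ℂ) A) = (2 * l.re : ℝ) * A := by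
    have h1 : σ * (starRingEnd ℂ) A = -A := eq_neg_of_add_eq_zero_right h00
    have h2 : l + (starRingEnd ℂ) l = ((2 * l.re : ℝ) : ℂ) := Complex.add_conj l
    rw [← h2]
    linear_combination -((starRingEnd ℂ) l) * h1
  rw [e4]
  apply mul_ne_zero
  · have h1 : 0 < l.re := by
      have h2 := (abs_le.1 ((Complex.abs_re_le_norm _).trans hl)).1
      rw [← hld, Complex.sub_re, Complex.ofReal_re] at h2
      have h3 : η * m ≤ 1 / 1000 * m := mul_le_mul_of_nonneg_right hη hm.le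
      linarith
    have : (2 * l.re : ℝ) ≠ 0 := by linarith
    exact_mod_cast this
  · rw [hAd]
    exact hA

/-- the setting on the line -/
lemma on_line {m η : ℝ} {F : ℂ → ℂ} (hm : 0 < m) (hN : NN m η F) (y : ℝ) (hy : |y| ≤ 1) (h : ℝ)
    (h0 : 0 ≤ h) (h1 : h ≤ 5) :
    F (1 + ((y + h : ℝ) : ℂ) * I) ≠ 0 ∧
    HasDerivAt (fun h : ℝ => F (1 + ((y + h : ℝ) : ℂ) * I))
      (I * m * (deriv F (1 + ((y + h : ℝ) : ℂ) * I) / m)) h ∧
    ‖deriv F (1 + ((y + h : ℝ) : ℂ) * I) / m / F (1 + ((y + h : ℝ) : ℂ) * I) - 1‖ ≤ η := by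
  have hre : (1 + ((y + h : ℝ) : ℂ) * I).re = 1 := by simp
  have hn : ‖1 + ((y + h : ℝ) : ℂ) * I‖ ≤ 20 := by
    refine (norm_add_le _ _).trans ?_
    rw [norm_one, norm_mul, Complex.norm_I, mul_one, Complex.norm_real, Real.norm_eq_abs]
    have := abs_add_le y h
    rw [abs_of_nonneg h0] at this
    linarith
  obtain ⟨hA, hl⟩ := hN.far _ (by rw [hre]; norm_num) hn
  have hmc : (m : ℂ) ≠ 0 := by exact_mod_cast hm.ne'
  refine ⟨hA, ?_, ?_⟩
  · have d1 : HasDerivAt F (deriv F (1 + ((y + h : ℝ) : ℂ) * I)) (1 + ((y + h : ℝ) : ℂ) * I) :=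
      (hN.diff _).hasDerivAt
    have d2 : HasDerivAt (fun h : ℝ => 1 + ((y + h : ℝ) : ℂ) * I) I h := by
      have h3 : HasDerivAt (fun h : ℝ => y + h) 1 h := (hasDerivAt_id h).const_add y
      have h4 : HasDerivAt (fun h : ℝ => 1 + ((y + h : ℝ) : ℂ) * I) (((1 : ℝ) : ℂ) * I) h :=
        (h3.ofReal_comp.mul_const I).const_add 1
      simpa using h4
    have d3 := HasDerivAt.comp h d1 d2
    refine d3.congr_deriv ?_
    field_simp
  · rw [logDeriv_apply] at hl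
    obtain ⟨q, hq⟩ : ∃ q, q = deriv F (1 + ((y + h : ℝ) : ℂ) * I) / F (1 + ((y + h : ℝ) : ℂ) * I) := ⟨_, rfl⟩
    rw [← hq] at hl
    have e1 : deriv F (1 + ((y + h : ℝ) : ℂ) * I) / m / F (1 + ((y + h : ℝ) : ℂ) * I) - 1 = (q - m) / m := by
      rw [hq]
      field_simp
    rw [e1, norm_div, Complex.norm_real, Real.norm_eq_abs, abs_of_pos hm, div_le_iff₀ hm]
    exact hl

lemma FS_axis {σ : ℝ} {F : ℂ → ℂ} (hs : ∀ z : ℂ, F (-((starRingEnd ℂ) z)) = (starRingEnd ℂ) (F z)) (u : ℝ) :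
    FS σ 1 F ((u : ℂ) * I) = F (1 + (u : ℂ) * I) + σ * (starRingEnd ℂ) (F (1 + (u : ℂ) * I)) := by
  unfold FS
  rw [← hs]
  have e1 : (u : ℂ) * I + ((1 : ℝ) : ℂ) = 1 + (u : ℂ) * I := by
    push_cast
    ring
  have e2 : (u : ℂ) * I - ((1 : ℝ) : ℂ) = -((starRingEnd ℂ) (1 + (u : ℂ) * I)) := by
    rw [map_add, map_mul, map_one, Complex.conj_I, Complex.conj_ofReal]
    push_cast
    ring
  rw [e1, e2]

/-- **The next zero on the axis.** -/
theorem gapS {m ε σ : ℝ} {F : ℂ → ℂ} (hσ : σ = 1 ∨ σ = -1) (hε : 0 < ε) (hε1 : ε ≤ 1 / 2) (hm : 4 ≤ m)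
    (hN : NN m (ε / 256) F) (y : ℝ) (hy : |y| ≤ 1) (h0 : FS σ 1 F ((y : ℂ) * I) = 0) :
    ∃ h : ℝ, 0 < h ∧ |m * h - Real.pi| ≤ ε ∧ FS σ 1 F (((y + h : ℝ) : ℂ) * I) = 0 ∧
      ∀ h' : ℝ, 0 < h' → h' < h → FS σ 1 F (((y + h' : ℝ) : ℂ) * I) ≠ 0 := by
  have hm0 : 0 < m := by linarith
  have hsm : ∀ h : ℝ, 0 ≤ h → m * h ≤ 4 → h ≤ 5 := by
    intro h h1 h2
    nlinarith
  have h00 : F (1 + ((y + 0 : ℝ) : ℂ) * I) + σ * (starRingEnd ℂ) (F (1 + ((y + 0 : ℝ) : ℂ) * I)) = 0 := by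
    rw [add_zero, ← FS_axis hN.symm]
    exact h0
  obtain ⟨h, hh0, hh1, hh2, hh3⟩ := next_zero (a := m) (e := ε / 256) (ε := ε) (s := σ) hm0 hε hε1 rfl hσ
    (fun h : ℝ => F (1 + ((y + h : ℝ) : ℂ) * I)) (fun h : ℝ => deriv F (1 + ((y + h : ℝ) : ℂ) * I) / m)
    (fun h h1 h2 => (on_line hm0 hN y hy h h1 (hsm h h1 h2)).1)
    (fun h h1 h2 => (on_line hm0 hN y hy h h1 (hsm h h1 h2)).2.1)
    (fun h h1 h2 => (on_line hm0 hN y hy h h1 (hsm h h1 h2)).2.2) h00
  refine ⟨h, hh0, hh1, ?_, ?_⟩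
  · rw [FS_axis hN.symm]
    exact hh2
  · intro h' h1 h2
    rw [FS_axis hN.symm]
    exact hh3 h' h1 h2

/-- **There is a zero on the axis.** -/
theorem exS {m σ : ℝ} {F : ℂ → ℂ} (hσ : σ = 1 ∨ σ = -1) (hm : 5 ≤ m) (hN : NN m (1 / 40) F) (y : ℝ)
    (hy : |y| ≤ 1) : ∃ h : ℝ, 0 ≤ h ∧ m * h ≤ 5 ∧ FS σ 1 F (((y + h : ℝ) : ℂ) * I) = 0 := by
  have hm0 : 0 < m := by linarith
  have hsm : ∀ h : ℝ, 0 ≤ h → m * h ≤ 5 → h ≤ 5 := by
    intro h h1 h2
    nlinarith
  obtain ⟨h, hh0, hh1, hh2⟩ := ex_zero (a := m) (e := 1 / 40) (s := σ) hm0 (by norm_num) le_rfl hσ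
    (fun h : ℝ => F (1 + ((y + h : ℝ) : ℂ) * I)) (fun h : ℝ => deriv F (1 + ((y + h : ℝ) : ℂ) * I) / m)
    (fun h h1 h2 => (on_line hm0 hN y hy h h1 (hsm h h1 h2)).1)
    (fun h h1 h2 => (on_line hm0 hN y hy h h1 (hsm h h1 h2)).2.1)
    (fun h h1 h2 => (on_line hm0 hN y hy h h1 (hsm h h1 h2)).2.2)
  refine ⟨h, hh0, hh1, ?_⟩
  rw [FS_axis hN.symm]
  exact hh2

end Pool.Agent.Hp428.SS
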