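import Pool.Agent.R838.CR.Real1

set_option autoImplicit false

/-!
# Functions on the line with logarithmic derivative close to `i a`: zeros of the real part
-/

namespace Pool.Agent.Hp428.SS

open Complex Filter Topology MeasureTheory Set
open Pool.Agent.R838.CR (first_zero)

/-- A function whose logarithmic derivative is close to `i a` is close to `exp (i a h)`. -/
lemma rot {a e M : ℝ} (ha : 0 < a) (he : 0 < e) (hM : 0 ≤ M) (he1 : M * e ≤ 1) (A B : ℝ → ℂ)
    (hA : ∀ h : ℝ, 0 ≤ h → a * h ≤ M → A h ≠ 0)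
    (hder : ∀ h : ℝ, 0 ≤ h → a * h ≤ M → HasDerivAt A (I * a * B h) h)
    (hB : ∀ h : ℝ, 0 ≤ h → a * h ≤ M → ‖B h / A h - 1‖ ≤ e) :
    ∀ h : ℝ, 0 ≤ h → a * h ≤ M → ‖A h / A 0 - cexp (((a * h : ℝ) : ℂ) * I)‖ ≤ 2 * M * e := by
  have hA0 : A 0 ≠ 0 := hA 0 le_rfl (by rw [mul_zero]; exact hM)
  intro x hx0 hx1
  have hin : ∀ h ∈ Icc 0 x, 0 ≤ h ∧ a * h ≤ M := fun h hh =>
    ⟨hh.1, (mul_le_mul_of_nonneg_left hh.2 ha.le).trans hx1⟩
  obtain ⟨W, hW⟩ : ∃ W : ℝ → ℂ, W = fun h => A h / A 0 * cexp (-(((a * h : ℝ) : ℂ) * I)) - 1 := ⟨_, rfl⟩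
  have hWd : ∀ h ∈ Icc 0 x, HasDerivAt W (I * a * (B h / A h - 1) * (W h + 1)) h := by
    intro h hh
    obtain ⟨h1, h2⟩ := hin h hh
    have d1 := (hder h h1 h2).div_const (A 0)
    have d2 : HasDerivAt (fun h : ℝ => -(((a * h : ℝ) : ℂ) * I)) (-((a : ℂ) * I)) h := by
      have h3 : HasDerivAt (fun h : ℝ => a * h) (a * 1) h := (hasDerivAt_id h).const_mul a
      have h4 : HasDerivAt (fun h : ℝ => -(((a * h : ℝ) : ℂ) * I)) (-(((a * 1 : ℝ) : ℂ) * I)) h :=
        (h3.ofReal_comp.mul_const I).neg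
      rw [mul_one] at h4
      exact h4
    have d3 := ((d1.mul d2.cexp).sub_const 1)
    rw [hW]
    refine d3.congr_deriv ?_
    have hAh := hA h h1 h2
    simp only
    field_simp
    ring
  have hWn : ∀ h ∈ Ico 0 x, ‖I * a * (B h / A h - 1) * (W h + 1)‖ ≤ (a * e) * ‖W h‖ + a * e := by
    intro h hh
    obtain ⟨h1, h2⟩ := hin h ⟨hh.1, hh.2.le⟩
    rw [norm_mul, norm_mul, norm_mul, Complex.norm_I, one_mul, Complex.norm_real, Real.norm_eq_abs,
      abs_of_pos ha]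
    have h3 : ‖W h + 1‖ ≤ ‖W h‖ + 1 := by
      refine (norm_add_le _ _).trans ?_
      rw [norm_one]
    calc a * ‖B h / A h - 1‖ * ‖W h + 1‖ ≤ a * e * (‖W h‖ + 1) := by
          gcongr
          exact hB h h1 h2
      _ = _ := by ring
  have hgr := norm_le_gronwallBound_of_norm_deriv_right_le (f := W)
    (f' := fun h => I * a * (B h / A h - 1) * (W h + 1)) (δ := 0) (K := a * e) (ε := a * e) (a := 0) (b := x)
    (fun h hh => (hWd h hh).continuousAt.continuousWithinAt)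
    (fun h hh => (hWd h ⟨hh.1, hh.2.le⟩).hasDerivWithinAt)
    (by
      rw [hW]
      simp [hA0]) hWn x ⟨hx0, le_rfl⟩
  have hae : a * e ≠ 0 := by positivity
  rw [gronwallBound_of_K_ne_0 hae] at hgr
  simp only [zero_mul, zero_add, div_self hae, one_mul, sub_zero] at hgr
  have h5 : Real.exp (a * e * x) - 1 ≤ 2 * M * e := by
    have h6 : a * e * x ≤ M * e := by
      calc a * e * x = e * (a * x) := by ring
        _ ≤ e * M := mul_le_mul_of_nonneg_left hx1 he.le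
        _ = _ := by ring
    have h7 : 0 ≤ a * e * x := by positivity
    have h8 : |a * e * x| ≤ 1 := by rw [abs_of_nonneg h7]; linarith
    have h9 := Real.abs_exp_sub_one_le h8
    have h10 := (le_abs_self _).trans h9
    rw [abs_of_nonneg h7] at h10
    linarith
  have h11 : A x / A 0 - cexp (((a * x : ℝ) : ℂ) * I) = W x * cexp (((a * x : ℝ) : ℂ) * I) := by
    rw [hW]
    simp only
    rw [sub_mul, one_mul, mul_assoc, ← Complex.exp_add]
    rw [show -(((a * x : ℝ) : ℂ) * I) + ((a * x : ℝ) : ℂ) * I = 0 by ring, Complex.exp_zero, mul_one]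
  rw [h11, norm_mul, Complex.norm_exp_ofReal_mul_I, mul_one]
  linarith

/-- The value on the line in terms of the real and imaginary parts. -/
lemma val_iff {s : ℝ} (hs : s = 1 ∨ s = -1) {A0 w : ℂ} (hA0 : A0 ≠ 0) (h0 : A0 + s * (starRingEnd ℂ) A0 = 0) :
    (w + s * (starRingEnd ℂ) w = 0 ↔ (w / A0).im = 0) := by
  have hcA0 : (starRingEnd ℂ) A0 ≠ 0 := by simpa using hA0
  have e1 : (s : ℂ) = -(A0 / (starRingEnd ℂ) A0) := by
    rw [eq_neg_iff_add_eq_zero, ← mul_right_inj' hcA0, mul_add, mul_zero]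
    rw [mul_div_cancel₀ _ hcA0]
    linear_combination h0
  have e2 : 2 * I * ((w / A0).im : ℂ) = w / A0 - (starRingEnd ℂ) (w / A0) := by
    rw [Complex.sub_conj]
    push_cast
    ring
  have e3 : w + s * (starRingEnd ℂ) w = A0 * (2 * I * ((w / A0).im : ℂ)) := by
    rw [e2, map_div₀, e1]
    field_simp
    ring
  rw [e3]
  constructor
  · intro h4
    rcases mul_eq_zero.1 h4 with h4 | h4
    · exact absurd h4 hA0
    · have h5 : (2 * I : ℂ) ≠ 0 := by simp
      have h6 := (mul_eq_zero.1 h4).resolve_left h5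
      exact_mod_cast h6
  · intro h4
    rw [h4]
    simp

/-- **The next zero** of `A + s conj A`. -/
theorem next_zero {a e ε s : ℝ} (ha : 0 < a) (hε : 0 < ε) (hε1 : ε ≤ 1 / 2) (he : e = ε / 256)
    (hs : s = 1 ∨ s = -1) (A B : ℝ → ℂ)
    (hA : ∀ h : ℝ, 0 ≤ h → a * h ≤ 4 → A h ≠ 0)
    (hder : ∀ h : ℝ, 0 ≤ h → a * h ≤ 4 → HasDerivAt A (I * a * B h) h)
    (hB : ∀ h : ℝ, 0 ≤ h → a * h ≤ 4 → ‖B h / A h - 1‖ ≤ e)
    (h0 : A 0 + s * (starRingEnd ℂ) (A 0) = 0) :
    ∃ h : ℝ, 0 < h ∧ |a * h - Real.pi| ≤ ε ∧ A h + s * (starRingEnd ℂ) (A h) = 0 ∧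
      ∀ h' : ℝ, 0 < h' → h' < h → A h' + s * (starRingEnd ℂ) (A h') ≠ 0 := by
  have he0 : 0 < e := by rw [he]; positivity
  have hrot := rot (M := 4) ha he0 (by norm_num) (by rw [he]; linarith) A B hA hder hB
  have hA0 : A 0 ≠ 0 := hA 0 le_rfl (by rw [mul_zero]; norm_num)
  have hAn : ∀ h : ℝ, 0 ≤ h → a * h ≤ 4 → ‖A h / A 0‖ ≤ 1 + 8 * e := by
    intro h h0 h1
    have h2 := norm_add_le (A h / A 0 - cexp (((a * h : ℝ) : ℂ) * I)) (cexp (((a * h : ℝ) : ℂ) * I))
    rw [sub_add_cancel, Complex.norm_exp_ofReal_mul_I] at h2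
    have := hrot h h0 h1
    linarith
  obtain ⟨h, hh0, hh1, hh2, hh3⟩ := first_zero (g := fun h : ℝ => (A h / A 0).im)
    (k := fun h : ℝ => (B h / A 0).re) (a := a) (ε := ε) (ε1 := 32 * e) ha hε hε1
    (by rw [he]; linarith) (by simp [hA0]) (by
      intro h h0 h1
      have d1 := (hder h h0 h1).div_const (A 0)
      have d2 : HasDerivAt (fun h : ℝ => (A h / A 0).im) ((I * (a : ℝ) * B h / A 0).im) h :=
        Complex.imCLM.hasFDerivAt.comp_hasDerivAt h d1
      refine d2.congr_deriv ?_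
      have e1 : I * ((a : ℝ) : ℂ) * B h / A 0 = ((a : ℝ) : ℂ) * (I * (B h / A 0)) := by ring
      rw [e1, Complex.im_ofReal_mul, Complex.I_mul_im]) (by
      intro h h0 h1
      have d1 := (Complex.abs_im_le_norm _).trans (hrot h h0 h1)
      rw [Complex.sub_im, Complex.exp_ofReal_mul_I_im] at d1
      linarith) (by
      intro h h0 h1
      have hAh := hA h h0 h1
      have e1 : B h / A 0 - cexp (((a * h : ℝ) : ℂ) * I) = (B h / A h - 1) * (A h / A 0) +
          (A h / A 0 - cexp (((a * h : ℝ) : ℂ) * I)) := by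
        field_simp
        ring
      have d1 : ‖B h / A 0 - cexp (((a * h : ℝ) : ℂ) * I)‖ ≤ e * (1 + 8 * e) + 8 * e := by
        rw [e1]
        refine (norm_add_le _ _).trans ?_
        rw [norm_mul]
        have k1 := hB h h0 h1
        have k2 := hAn h h0 h1
        have k3 := hrot h h0 h1
        have k4 : ‖B h / A h - 1‖ * ‖A h / A 0‖ ≤ e * (1 + 8 * e) := by gcongr
        linarith
      have d2 := (Complex.abs_re_le_norm _).trans d1
      rw [Complex.sub_re, Complex.exp_ofReal_mul_I_re] at d2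
      have d3 : e * (1 + 8 * e) ≤ e * 2 := by
        gcongr
        rw [he]
        linarith
      linarith)
  have hnh : a * h ≤ 4 := by
    have := (abs_le.1 hh1).2
    have hpi2 := Real.pi_lt_d2
    norm_num at hpi2
    linarith
  refine ⟨h, hh0, hh1, ?_, ?_⟩
  · exact (val_iff hs hA0 h0).2 hh2
  · intro h' h0' hlt hcon
    exact hh3 h' h0' hlt ((val_iff hs hA0 h0).1 hcon)

/-- **There is a zero** of `A + s conj A` in a window of length `5 / a`. -/
theorem ex_zero {a e s : ℝ} (ha : 0 < a) (he : 0 < e) (he1 : e ≤ 1 / 40) (hs : s = 1 ∨ s = -1) (A B : ℝ → ℂ)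
    (hA : ∀ h : ℝ, 0 ≤ h → a * h ≤ 5 → A h ≠ 0)
    (hder : ∀ h : ℝ, 0 ≤ h → a * h ≤ 5 → HasDerivAt A (I * a * B h) h)
    (hB : ∀ h : ℝ, 0 ≤ h → a * h ≤ 5 → ‖B h / A h - 1‖ ≤ e) :
    ∃ h : ℝ, 0 ≤ h ∧ a * h ≤ 5 ∧ A h + s * (starRingEnd ℂ) (A h) = 0 := by
  have hrot := rot (M := 5) ha he (by norm_num) (by linarith) A B hA hder hB
  have hA0 : A 0 ≠ 0 := hA 0 le_rfl (by rw [mul_zero]; norm_num)
  -- a unit `c` such that the value is `2 Re (c A) / c`
  obtain ⟨c, hc, hval⟩ : ∃ c : ℂ, ‖c‖ = 1 ∧ ∀ w : ℂ, (c * w).re = 0 → w + s * (starRingEnd ℂ) w = 0 := by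
    rcases hs with rfl | rfl
    · refine ⟨1, by simp, fun w hw => ?_⟩
      rw [one_mul] at hw
      apply Complex.ext
      · simp [hw]
      · simp
    · refine ⟨-I, by simp, fun w hw => ?_⟩
      have : w.im = 0 := by simpa using hw
      apply Complex.ext
      · simp
      · simp [this]
  by_contra hcon
  push Not at hcon
  have hne : ∀ h : ℝ, 0 ≤ h → a * h ≤ 5 → (c * A h).re ≠ 0 := fun h h0 h1 hz => hcon h h0 h1 (hval _ hz)
  obtain ⟨w, hw⟩ : ∃ w, w = c * A 0 := ⟨_, rfl⟩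
  have hw0 : 0 < ‖w‖ := by
    rw [hw, norm_mul, hc, one_mul]
    exact norm_pos_iff.2 hA0
  have hcont : ContinuousOn (fun h : ℝ => (c * A h).re) (Icc 0 (5 / a)) := by
    intro x hx
    have hx2 : a * x ≤ 5 := by
      have := hx.2
      rw [le_div_iff₀ ha] at this
      linarith
    exact (Complex.continuous_re.continuousAt.comp
      ((continuousAt_const).mul (hder x hx.1 hx2).continuousAt)).continuousWithinAt
  have hpi := Real.pi_gt_three
  have hpi2 := Real.pi_lt_d2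
  norm_num at hpi2
  -- the values at the quarter periods
  have hq : ∀ (x : ℝ) (v : ℂ), 0 ≤ x → x ≤ 5 → cexp ((x : ℂ) * I) = v →
      |(c * A (x / a)).re - (w * v).re| ≤ 1 / 4 * ‖w‖ ∧ 0 ≤ x / a ∧ a * (x / a) ≤ 5 := by
    intro x v hx0 hx5 hv
    have hax : a * (x / a) = x := by field_simp
    have h1 := hrot (x / a) (by positivity) (by rw [hax]; exact hx5)
    rw [hax, hv] at h1
    refine ⟨?_, by positivity, by rw [hax]; exact hx5⟩
    rw [← Complex.sub_re]
    refine (Complex.abs_re_le_norm _).trans ?_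
    have e1 : c * A (x / a) - w * v = w * (A (x / a) / A 0 - v) := by
      rw [hw]
      field_simp
    rw [e1, norm_mul]
    have h2 : ‖A (x / a) / A 0 - v‖ ≤ 1 / 4 := by linarith
    calc ‖w‖ * ‖A (x / a) / A 0 - v‖ ≤ ‖w‖ * (1 / 4) := mul_le_mul_of_nonneg_left h2 hw0.le
      _ = _ := by ring
  obtain ⟨k0, -, -⟩ := hq 0 1 le_rfl (by norm_num) (by simp)
  obtain ⟨k1, k1a, k1b⟩ := hq (Real.pi / 2) I (by positivity) (by linarith) (by
    push_cast
    exact Complex.exp_pi_div_two_mul_I)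
  obtain ⟨k2, k2a, k2b⟩ := hq Real.pi (-1) (by positivity) (by linarith) (by exact Complex.exp_pi_mul_I)
  obtain ⟨k3, k3a, k3b⟩ := hq (3 * Real.pi / 2) (-I) (by positivity) (by linarith) (by
    have : ((3 * Real.pi / 2 : ℝ) : ℂ) * I = (Real.pi : ℂ) * I + (Real.pi : ℂ) / 2 * I := by
      push_cast
      ring
    rw [this, Complex.exp_add, Complex.exp_pi_mul_I, Complex.exp_pi_div_two_mul_I]
    ring)
  have hsign : (∀ h : ℝ, 0 ≤ h → a * h ≤ 5 → 0 < (c * A h).re) ∨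
      (∀ h : ℝ, 0 ≤ h → a * h ≤ 5 → (c * A h).re < 0) := by
    have hmem : ∀ h : ℝ, 0 ≤ h → a * h ≤ 5 → h ∈ Icc 0 (5 / a) := by
      intro h h0 h1
      refine ⟨h0, ?_⟩
      rw [le_div_iff₀ ha]
      linarith
    have hiv : ∀ x y : ℝ, x ∈ Icc 0 (5 / a) → y ∈ Icc 0 (5 / a) → (c * A x).re < 0 → 0 < (c * A y).re → False := by
      intro x y hx hy h1 h2
      have hsub : uIcc x y ⊆ Icc 0 (5 / a) := uIcc_subset_Icc hx hy
      have h3 := intermediate_value_uIcc (hcont.mono hsub)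
      obtain ⟨z, hz, hz0⟩ := h3 (show (0 : ℝ) ∈ uIcc _ _ by
        rw [mem_uIcc]
        left
        exact ⟨h1.le, h2.le⟩)
      have hz2 := hsub hz
      refine hne z hz2.1 ?_ hz0
      have := hz2.2
      rw [le_div_iff₀ ha] at this
      linarith
    rcases lt_or_gt_of_ne (hne 0 le_rfl (by rw [mul_zero]; norm_num)) with h1 | h1
    · right
      intro h h0 h2
      rcases lt_or_gt_of_ne (hne h h0 h2) with h3 | h3
      · exact h3
      · exact absurd (hiv 0 h (hmem 0 le_rfl (by rw [mul_zero]; norm_num)) (hmem h h0 h2) h1 h3) (by simp)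
    · left
      intro h h0 h2
      rcases lt_or_gt_of_ne (hne h h0 h2) with h3 | h3
      · exact absurd (hiv h 0 (hmem h h0 h2) (hmem 0 le_rfl (by rw [mul_zero]; norm_num)) h3 h1) (by simp)
      · exact h3
  have m1 : (w * I).re = -w.im := by simp
  have m2 : (w * -1).re = -w.re := by simp
  have m3 : (w * -I).re = w.im := by simp
  have m0 : (w * 1).re = w.re := by simp
  rw [m0] at k0
  rw [m1] at k1
  rw [m2] at k2
  rw [m3] at k3
  rw [abs_le] at k0 k1 k2 k3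
  have hfin : |w.re| ≤ 1 / 4 * ‖w‖ ∧ |w.im| ≤ 1 / 4 * ‖w‖ := by
    rcases hsign with hp | hp
    · have p0 := hp (0 / a) (by simp) (by simp)
      have p1 := hp _ k1a k1b
      have p2 := hp _ k2a k2b
      have p3 := hp _ k3a k3b
      rw [abs_le, abs_le]
      refine ⟨⟨?_, ?_⟩, ⟨?_, ?_⟩⟩ <;> linarith [k0.1, k0.2, k1.1, k1.2, k2.1, k2.2, k3.1, k3.2]
    · have p0 := hp (0 / a) (by simp) (by simp)
      have p1 := hp _ k1a k1b
      have p2 := hp _ k2a k2b
      have p3 := hp _ k3a k3b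
      rw [abs_le, abs_le]
      refine ⟨⟨?_, ?_⟩, ⟨?_, ?_⟩⟩ <;> linarith [k0.1, k0.2, k1.1, k1.2, k2.1, k2.2, k3.1, k3.2]
  have hnorm := Complex.norm_le_abs_re_add_abs_im w
  linarith [hfin.1, hfin.2]

end Pool.Agent.Hp428.SS
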